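import Mathlib
import Pool.Agent.Lib.MP_71630c_lc.Ex.Defs
import Pool.Agent.Lib.MP_71630c_lc.Ex.Main

/-! An exponential size separation between delta-regular resolution and resolution. -/

namespace Pool.Agent.Results.MP_71630c_lc.Exponential

open Pool.Agent.Lib.MP_71630c_lc Pool.Agent.Lib.MP_71630c_lc.Ex

theorem result (δ : ℝ) (hδ : δ < 1) : ∃ d : ℕ, ∀ m : ℕ, ∃ n ≥ m,
    ∃ F : Finset (Finset (Fin n × Bool)),
      (∀ x : Fin n, ∃ D ∈ F, ∃ b : Bool, (x, b) ∈ D) ∧ (∀ D ∈ F, D.card ≤ d * Nat.log 2 n) ∧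
      F.card ≤ n ^ d ∧
      (∃ (s : ℕ) (C : Fin (s + 1) → Finset (Fin n × Bool)), IsRefutation F s C ∧ s + 1 ≤ n ^ d) ∧
      ∀ (s : ℕ) (C : Fin (s + 1) → Finset (Fin n × Bool)), IsRegular δ F s C →
        2 ^ n ≤ (s + 1) ^ d :=
  sep_real δ hδ

end Pool.Agent.Results.MP_71630c_lc.Exponential
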